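import Pool.Agent.helper47.AP7.Neg

/-!
# The approximation property of the Lipschitz free `p`-spaces over discrete metric spaces

Main theorem (`result`):

* there is a countable metric space `M`, all of whose points are isolated, such that for every
  `0 < p ≤ 1` the Lipschitz free `p`-space `F_p(M)` (for `p = 1`: the Lipschitz free Banach space)
  fails the approximation property;
* for every `0 < p ≤ 1` and every complete discrete metric space `M` (more generally, every `M` with
  scattered completion), `F_p(M)` has the approximation property.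

Sources of the proofs: `helper27/Enflo1`-`Enflo3`, `GK`, `AP7/DiscreteFailsAP` (the counterexample for
`p = 1`), `helper47/AP7/Envelope` (AP passes from `F_p(M)` to `F_1(M)`), `helper27/AP7/ScatteredAP`
(the positive part and existence).
-/

set_option autoImplicit false

open Set

namespace Pool.Agent.Results.MP_7b119f_an.DiscreteAP

universe u

/-- `X` is a `p`-normed space: its group norm is `p`-homogeneous, i.e. `x ↦ ‖x‖ ^ (1/p)` is a
`p`-norm (and the group norm is the `p`-th power of that `p`-norm). -/
class PNormed (p : ℝ) (X : Type*) [NormedAddCommGroup X] [Module ℝ X] : Prop where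
  norm_smul : ∀ (a : ℝ) (x : X), ‖a • x‖ = |a| ^ p * ‖x‖

/-- `(X, δ)` is the Lipschitz free `p`-space over the pointed metric space `(M, o)`.  Here `X` is
a `p`-Banach space (a complete `p`-normed space; recall that the group norm `‖·‖` is the `p`-th
power of the `p`-norm), `δ` maps `o` to `0`, is isometric for the `p`-norm
(`‖δ x - δ y‖ = dist x y ^ p`), the linear span of its range is dense, and every map `f` into a
`p`-Banach space `Y` which vanishes at `o` and is Lipschitz with constant `L` for the `p`-norm of
`Y` factors as `f = T ∘ δ` for a unique bounded linear operator `T`, and `T` has norm at most `L`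
for the `p`-norms. -/
structure IsLipFree (p : ℝ) {M : Type*} {X : Type u} [MetricSpace M] [NormedAddCommGroup X]
    [Module ℝ X] (o : M) (δ : M → X) : Prop where
  complete : CompleteSpace X
  pnormed : PNormed p X
  map_base : δ o = 0
  norm_sub : ∀ x y, ‖δ x - δ y‖ = dist x y ^ p
  dense_span : Dense (Submodule.span ℝ (range δ) : Set X)
  exists_lift : ∀ (Y : Type u) [NormedAddCommGroup Y] [Module ℝ Y] [CompleteSpace Y]
    [PNormed p Y] (f : M → Y) (L : ℝ), 0 ≤ L → f o = 0 →
    (∀ x y, ‖f x - f y‖ ≤ (L * dist x y) ^ p) →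
    ∃! T : X →L[ℝ] Y, (∀ x, T (δ x) = f x) ∧ ∀ v, ‖T v‖ ≤ L ^ p * ‖v‖

/-- The approximation property: the identity is approximated, uniformly on every compact set,
by bounded linear operators of finite rank. -/
def HasAP (X : Type*) [NormedAddCommGroup X] [Module ℝ X] : Prop :=
  ∀ K : Set X, IsCompact K → ∀ ε > 0, ∃ T : X →L[ℝ] X,
    FiniteDimensional ℝ (LinearMap.range (T : X →ₗ[ℝ] X)) ∧ ∀ x ∈ K, ‖T x - x‖ < ε

/-- A topological space is scattered if every nonempty subset `S` has a point `a` which is
isolated in `S`. -/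
def IsScattered (Z : Type*) [TopologicalSpace Z] : Prop :=
  ∀ S : Set Z, S.Nonempty → ∃ a ∈ S, ∃ U : Set Z, IsOpen U ∧ U ∩ S = {a}

section

variable {p : ℝ} {M : Type*} {X : Type u} [MetricSpace M] [NormedAddCommGroup X] [Module ℝ X]
  {o : M} {δ : M → X}

lemma IsLipFree.toLib (h : IsLipFree p o δ) :
    Pool.Agent.helper27.AP7.ScatteredAP.IsLipFree p o δ where
  complete := h.complete
  pnormed := ⟨h.pnormed.norm_smul⟩
  map_base := h.map_base
  norm_sub := h.norm_sub
  dense_span := h.dense_span
  exists_lift := fun Y _ _ _ hY f L hL hf hfL => by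
    have : PNormed p Y := ⟨hY.norm_smul⟩
    exact h.exists_lift Y f L hL hf hfL

lemma IsLipFree.ofLib (h : Pool.Agent.helper27.AP7.ScatteredAP.IsLipFree p o δ) :
    IsLipFree p o δ where
  complete := h.complete
  pnormed := ⟨h.pnormed.norm_smul⟩
  map_base := h.map_base
  norm_sub := h.norm_sub
  dense_span := h.dense_span
  exists_lift := fun Y _ _ _ hY f L hL hf hfL => by
    have : Pool.Agent.helper27.AP7.ScatteredAP.PNormed p Y := ⟨hY.norm_smul⟩
    exact h.exists_lift Y f L hL hf hfL

end

/-- **Main theorem.**
(1) There is a countable discrete metric space `M` such that, for every `0 < p ≤ 1`, the Lipschitz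
free `p`-space over `M` (exists and) fails the approximation property.
(2) For every `0 < p ≤ 1` and every metric space `M` which is complete and discrete, or more
generally has a scattered completion, the Lipschitz free `p`-space over `M` (exists and) has the
approximation property. -/
theorem result :
    (∃ (M : Type) (_ : MetricSpace M) (_ : DiscreteTopology M) (_ : Countable M) (o : M),
      ∀ p : ℝ, 0 < p → p ≤ 1 →
        (∃ (X : Type) (_ : NormedAddCommGroup X) (_ : Module ℝ X) (δ : M → X),
          IsLipFree p o δ) ∧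
        ∀ (X : Type) [NormedAddCommGroup X] [Module ℝ X] (δ : M → X),
          IsLipFree p o δ → ¬ HasAP X) ∧
    (∀ p : ℝ, 0 < p → p ≤ 1 → ∀ (M : Type u) [MetricSpace M] (o : M),
      ((CompleteSpace M ∧ DiscreteTopology M) ∨ IsScattered (UniformSpace.Completion M)) →
        (∃ (X : Type u) (_ : NormedAddCommGroup X) (_ : Module ℝ X) (δ : M → X),
          IsLipFree p o δ) ∧
        ∀ (X : Type u) [NormedAddCommGroup X] [Module ℝ X] (δ : M → X),
          IsLipFree p o δ → HasAP X) := by
  have hex : ∀ p : ℝ, 0 < p → p ≤ 1 → ∀ (M : Type u) [MetricSpace M] (o : M),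
      ∃ (X : Type u) (_ : NormedAddCommGroup X) (_ : Module ℝ X) (δ : M → X),
        IsLipFree p o δ := by
    intro p hp hp1 M _ o
    obtain ⟨X, h1, h2, δ, h⟩ :=
      Pool.Agent.helper27.AP7.ScatteredAP.exists_isLipFree hp hp1 M o
    exact ⟨X, h1, h2, δ, IsLipFree.ofLib h⟩
  refine ⟨?_, fun p hp hp1 M _ o hM => ⟨hex p hp hp1 M o, fun X _ _ δ hδ => ?_⟩⟩
  · obtain ⟨M, h1, h2, h3, o, h⟩ := Pool.Agent.helper47.AP7.exists_discrete
    refine ⟨M, h1, h2, h3, o, fun p hp hp1 => ⟨?_, fun X _ _ δ hδ => h p hp hp1 X δ hδ.toLib⟩⟩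
    obtain ⟨X, g1, g2, δ, g⟩ :=
      Pool.Agent.helper27.AP7.ScatteredAP.exists_isLipFree hp hp1 M o
    exact ⟨X, g1, g2, δ, IsLipFree.ofLib g⟩
  · have hs : Pool.Agent.helper27.AP7.ScatteredAP.IsScattered (UniformSpace.Completion M) := by
      rcases hM with ⟨hc, hd⟩ | hM
      · exact Pool.Agent.helper47.AP7.isScattered_of_complete
      · exact hM
    exact (Pool.Agent.helper27.AP7.ScatteredAP.result p hp hp1 M o hs).2 X δ hδ.toLib

end Pool.Agent.Results.MP_7b119f_an.DiscreteAP
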